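import Mathlib

/-!
# The exponent in the question of Adleman and Odlyzko is at least one

The values of `X - N` at `1, ..., N` are not positive and its length is about `log₂ N`.  Hence for
every `a < 1` the bound `p(f) ≤ C exp (L(f)^a)` fails for `f = X - N` with large `N = 2^t`.
-/

set_option autoImplicit false

namespace Pool.Agent.Results.MP_d466de_nt.ExponentAtLeastOne

open Filter

/-- The length `L(f)`: the sum of the numbers of binary digits of the coefficients (a zero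
coefficient counting one). -/
def len (f : Polynomial ℤ) : ℕ :=
  ∑ k ∈ Finset.range (f.natDegree + 1), max 1 (Nat.size (f.coeff k).natAbs)

/-- The condition `(*)`: no integer `n > 1` divides all values `f(x)`. -/
def Star (f : Polynomial ℤ) : Prop := ∀ n : ℕ, 1 < n → ¬ ∀ x : ℤ, (n : ℤ) ∣ f.eval x

/-- The polynomials of the question. -/
def Admissible (f : Polynomial ℤ) : Prop :=
  1 ≤ f.natDegree ∧ Irreducible f ∧ 0 < f.leadingCoeff ∧ Star f

/-- `f` takes a positive prime value `f(m)` with `1 ≤ m ≤ C exp (L(f)^a)`. -/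
def HasPrime (a C : ℝ) (f : Polynomial ℤ) : Prop :=
  ∃ m : ℕ, 1 ≤ m ∧ Prime (f.eval (m : ℤ)) ∧ 0 < f.eval (m : ℤ) ∧
    (m : ℝ) ≤ C * Real.exp ((len f : ℝ) ^ a)

/-- The statement of Q1 with the exponent `a`. -/
def HoldsWith (a : ℝ) : Prop :=
  ∃ ℓ₀ : ℕ, 1 ≤ ℓ₀ ∧ ∃ C : ℝ, 0 < C ∧ ∀ f : Polynomial ℤ, Admissible f → ℓ₀ ≤ len f →
    HasPrime a C f

open Polynomial in
theorem adm (t : ℕ) : Admissible (X - C ((2 : ℤ) ^ t)) := by
  refine ⟨by rw [natDegree_X_sub_C], irreducible_X_sub_C _, ?_, ?_⟩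
  · rw [(monic_X_sub_C _).leadingCoeff]
    exact one_pos
  · intro n hn h
    have h1 := h ((2 : ℤ) ^ t + 1)
    rw [eval_sub, eval_X, eval_C, add_sub_cancel_left] at h1
    have h2 : (n : ℤ) ≤ 1 := Int.le_of_dvd one_pos h1
    omega

open Polynomial in
theorem len_eq (t : ℕ) : len (X - C ((2 : ℤ) ^ t)) = t + 2 := by
  unfold len
  rw [natDegree_X_sub_C, Finset.sum_range_succ, Finset.sum_range_one]
  have h0 : ((X - C ((2 : ℤ) ^ t)).coeff 0).natAbs = 2 ^ t := by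
    rw [coeff_sub, coeff_X_zero, coeff_C_zero, zero_sub, Int.natAbs_neg, Int.natAbs_pow]
    rfl
  have h1 : ((X - C ((2 : ℤ) ^ t)).coeff 1).natAbs = 1 := by
    rw [coeff_sub, coeff_X_one, coeff_C_succ, sub_zero]
    rfl
  rw [h0, h1, Nat.size_pow, Nat.size_one]
  omega

theorem growth {a : ℝ} (ha : a < 1) (ℓ₀ : ℕ) {C : ℝ} (hC : 0 < C) :
    ∃ t : ℕ, ℓ₀ ≤ t ∧ C * Real.exp (((t + 2 : ℕ) : ℝ) ^ a) < 2 ^ t := by
  have hl : 0 < Real.log 2 := Real.log_pos one_lt_two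
  have h1 : ∀ᶠ x : ℝ in atTop, x ^ (-(1 - a)) < Real.log 2 / 2 :=
    (tendsto_rpow_neg_atTop (show 0 < 1 - a by linarith)).eventually_lt_const (by positivity)
  have h2 : ∀ᶠ x : ℝ in atTop, (Real.log C + 2 * Real.log 2) / (Real.log 2 / 2) < x :=
    eventually_gt_atTop _
  have h3 : Tendsto (fun t : ℕ => ((t + 2 : ℕ) : ℝ)) atTop atTop :=
    tendsto_natCast_atTop_atTop.comp (tendsto_add_atTop_nat 2)
  obtain ⟨t, ht1, ht2, ht3⟩ :=
    ((h3.eventually h1).and ((h3.eventually h2).and (eventually_ge_atTop ℓ₀))).exists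
  refine ⟨t, ht3, ?_⟩
  have hx : (0 : ℝ) < ((t + 2 : ℕ) : ℝ) := by positivity
  have ht0 : ((t + 2 : ℕ) : ℝ) ^ a < Real.log 2 / 2 * ((t + 2 : ℕ) : ℝ) := by
    have h5 : ((t + 2 : ℕ) : ℝ) ^ a = ((t + 2 : ℕ) : ℝ) ^ (-(1 - a)) * ((t + 2 : ℕ) : ℝ) := by
      rw [← Real.rpow_add_one hx.ne']
      congr 1
      ring
    rw [h5]
    exact mul_lt_mul_of_pos_right ht1 hx
  rw [div_lt_iff₀ (by positivity)] at ht2
  have h4 : Real.log C + ((t + 2 : ℕ) : ℝ) ^ a < t * Real.log 2 := by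
    push_cast at ht0 ht2 ⊢
    nlinarith
  calc C * Real.exp (((t + 2 : ℕ) : ℝ) ^ a)
      = Real.exp (Real.log C + ((t + 2 : ℕ) : ℝ) ^ a) := by rw [Real.exp_add, Real.exp_log hC]
    _ < Real.exp (t * Real.log 2) := Real.exp_lt_exp.2 h4
    _ = 2 ^ t := by
        rw [mul_comm, Real.exp_mul, Real.exp_log two_pos, Real.rpow_natCast]

/-- For every `a < 1`, every `ℓ₀` and every `C > 0` there is a polynomial `X - 2^t` of length at
least `ℓ₀` without a prime value at the integers `1 ≤ m ≤ C exp (L^a)`.  Hence Q1 can hold only with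
an exponent `a ≥ 1`. -/
theorem result :
    (∀ a < (1 : ℝ), ∀ ℓ₀ : ℕ, ∀ C > (0 : ℝ), ∃ t : ℕ,
      Admissible (Polynomial.X - Polynomial.C ((2 : ℤ) ^ t)) ∧
      ℓ₀ ≤ len (Polynomial.X - Polynomial.C ((2 : ℤ) ^ t)) ∧
      ¬ HasPrime a C (Polynomial.X - Polynomial.C ((2 : ℤ) ^ t))) ∧
    ∀ a : ℝ, HoldsWith a → 1 ≤ a := by
  have key : ∀ a < (1 : ℝ), ∀ ℓ₀ : ℕ, ∀ C > (0 : ℝ), ∃ t : ℕ,
      Admissible (Polynomial.X - Polynomial.C ((2 : ℤ) ^ t)) ∧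
      ℓ₀ ≤ len (Polynomial.X - Polynomial.C ((2 : ℤ) ^ t)) ∧
      ¬ HasPrime a C (Polynomial.X - Polynomial.C ((2 : ℤ) ^ t)) := by
    intro a ha ℓ₀ C hC
    obtain ⟨t, ht, hlt⟩ := growth ha ℓ₀ hC
    refine ⟨t, adm t, by rw [len_eq]; omega, ?_⟩
    rintro ⟨m, -, -, hpos, hm⟩
    rw [len_eq] at hm
    rw [Polynomial.eval_sub, Polynomial.eval_X, Polynomial.eval_C] at hpos
    have h1 : (m : ℝ) < 2 ^ t := hm.trans_lt hlt
    have h2 : (m : ℤ) < 2 ^ t := by exact_mod_cast h1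
    omega
  refine ⟨key, ?_⟩
  rintro a ⟨ℓ₀, -, C, hC, h⟩
  by_contra hlt
  obtain ⟨t, h1, h2, h3⟩ := key a (not_le.1 hlt) ℓ₀ C hC
  exact h3 (h _ h1 h2)

end Pool.Agent.Results.MP_d466de_nt.ExponentAtLeastOne
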